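import Pool.Agent.W787.PS.MainC
import Pool.Agent.W787.PS.PresT
import Pool.Agent.W918.PS.Neu
import Pool.Agent.W196.PS.BEL
import Pool.Agent.W19.PSM.Sml
import Pool.Agent.W490.PS.Isol
import Pool.Agent.W782.PS.Isog
import Pool.Agent.W880.PS.DataMain
import Pool.Agent.W493.PS.Rel
import Pool.Agent.W493.PS.Cau

/-!
# The Palais-Smale property of the mean-field functional

Problem MP_577350_an, Q1. Let `(M, g)` be a closed Riemannian surface of unit area (`RiemSurface`),
`h > 0` a smooth function and `lam > 0` with `lam ≠ 8 π k` for all `k ≥ 1`. Then the functional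
`J_lam(u) = 1/2 ∫ |∇u|² + lam ∫ u - lam log ∫ h e^u` on `H¹(M)` has the Palais-Smale property.
-/

open MeasureTheory Filter Topology

noncomputable section

namespace Pool.Agent.Results.MP_577350_an.PalaisSmale

open Pool.Agent.W787.PS Pool.Agent.W787.PS.Asm

theorem isog_all : S_ISOG :=
  Pool.Agent.W782.PS.isog (isol qal Pool.Agent.W19.PSM.sml (bel Pool.Agent.W918.PS.neu))

theorem pss_all : S_PSS := by
  have hdata : S_DATA := Pool.Agent.W880.PS.data t_loc t_fri t_poti t_potd t_smo t_gip
  exact t_pss hdata (cau t_smo t_dir t_poim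
    (rel t_disc t_poi t_smo t_gip t_dir))

/-- Let `M` be a closed Riemannian surface of unit area, `h > 0` a smooth function and `lam > 0` a
number which is not a multiple of `8 π`. Then the mean-field functional `J` is Fréchet
differentiable on `H¹(M)` and has the Palais-Smale property: every sequence `U n` in `H¹(M)` with
`∫ h e^{U n} = 1`, `J (U n) → c` and `J' (U n) → 0` in the dual of `H¹(M)` has a subsequence which
converges in `H¹(M)`. (The space `H¹(M)` exists, and the statement holds for every realisation `H`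
of it.) -/
theorem result (M : Type) [TopologicalSpace M] [T2Space M] [CompactSpace M] [ConnectedSpace M]
    [MeasurableSpace M] [BorelSpace M] (X : RiemSurface M) (h : M → ℝ) (lam : ℝ)
    (hh : X.Smooth h) (hpos : ∀ x, 0 < h x) (hlam : 0 < lam)
    (hN : ∀ k : ℕ, 1 ≤ k → lam ≠ 8 * Real.pi * k) :
    (∃ (H : Type) (_ : NormedAddCommGroup H) (_ : InnerProductSpace ℝ H),
      Nonempty (Sobolev X H)) ∧
    ∀ (H : Type) [NormedAddCommGroup H] [InnerProductSpace ℝ H] (m : Sobolev X H),
      (∀ u, Integrable (fun x => Real.exp (m.rep u x)) X.vol) ∧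
      Differentiable ℝ (m.J h lam) ∧ m.PalaisSmale h lam := by
  have hN' : ∀ k : ℕ, lam ≠ 8 * Real.pi * k := by
    intro k
    rcases Nat.eq_zero_or_pos k with rfl | hk
    · simpa using hlam.ne'
    · exact hN k hk
  refine ⟨⟨X.geo.H1, inferInstance, inferInstance, ⟨Sobolev.model X⟩⟩, ?_⟩
  intro H _ _ m
  exact m.transfer (exa_all isog_all M X)
    (final pss_all isog_all (Pool.Agent.W605.PS.h1d t_h1z) M X h lam hh hpos hlam hN')

end Pool.Agent.Results.MP_577350_an.PalaisSmale
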